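import Mathlib

set_option autoImplicit false

namespace Pool.Agent.Lib.MP_9ef6ec_co

variable {V : Type}

/-- A `K₄` minor model. -/
def HasK4 (G : SimpleGraph V) : Prop :=
  ∃ f : Fin 4 → Set V,
    (∀ i j, i ≠ j → Disjoint (f i) (f j)) ∧
    (∀ i, (G.induce (f i)).Connected) ∧
    (∀ i j, i ≠ j → ∃ u ∈ f i, ∃ v ∈ f j, G.Adj u v)

lemma HasK4.mono {G H : SimpleGraph V} (h : G ≤ H) (hG : HasK4 G) : HasK4 H := by
  obtain ⟨f, h1, h2, h3⟩ := hG
  refine ⟨f, h1, fun i => ?_, fun i j hij => ?_⟩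
  · exact (h2 i).mono (fun a b hab => h hab)
  · obtain ⟨u, hu, v, hv, huv⟩ := h3 i j hij
    exact ⟨u, hu, v, hv, h huv⟩

/-- a vertex with at least three neighbours -/
def deg3 (G : SimpleGraph V) (z : V) : Prop := ∀ a b, ∃ c, c ≠ a ∧ c ≠ b ∧ G.Adj z c

lemma not_mem_of_isolated {H : SimpleGraph V} {x : V} (hx : ∀ b, ¬ H.Adj x b)
    {f : Fin 4 → Set V} (h2 : ∀ i, (H.induce (f i)).Connected)
    (h3 : ∀ i j, i ≠ j → ∃ u ∈ f i, ∃ v ∈ f j, H.Adj u v) (i : Fin 4) : x ∉ f i := by
  intro hxi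
  obtain ⟨j, hj⟩ : ∃ j : Fin 4, i ≠ j := by
    by_cases h : i = 0
    · exact ⟨1, by rw [h]; decide⟩
    · exact ⟨0, h⟩
  obtain ⟨a, ha, b, _, hab⟩ := h3 i j hj
  by_cases hax : a = x
  · rw [hax] at hab; exact hx b hab
  · have hr : (H.induce (f i)).Reachable ⟨x, hxi⟩ ⟨a, ha⟩ := (h2 i).preconnected _ _
    have hne : (⟨x, hxi⟩ : f i) ≠ ⟨a, ha⟩ := by
      intro h; exact hax (congrArg Subtype.val h).symm
    obtain ⟨c, hc⟩ := hr.nonempty_neighborSet_left hne
    exact hx c.1 hc

/-- lifting a model through a contraction of `x` into `u`. -/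
lemma lift_contract {G H : SimpleGraph V} {x u : V} (hxu : G.Adj x u)
    (hx : ∀ b, ¬ H.Adj x b)
    (hH : ∀ a b, H.Adj a b → G.Adj a b ∨ (a = u ∧ G.Adj x b) ∨ (b = u ∧ G.Adj a x))
    (h : HasK4 H) : HasK4 G := by
  classical
  obtain ⟨f, h1, h2, h3⟩ := h
  have hxf := fun i => not_mem_of_isolated hx h2 h3 i
  obtain ⟨f', hf'⟩ : ∃ f' : Fin 4 → Set V, ∀ i, f' i = {v | v ∈ f i ∨ (u ∈ f i ∧ v = x)} :=
    ⟨_, fun i => rfl⟩
  have hmem : ∀ i v, v ∈ f' i ↔ v ∈ f i ∨ (u ∈ f i ∧ v = x) := by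
    intro i v; rw [hf']; rfl
  refine ⟨f', ?_, ?_, ?_⟩
  · intro i j hij
    rw [Set.disjoint_left]
    intro v hvi hvj
    rw [hmem] at hvi hvj
    have hd := Set.disjoint_left.mp (h1 i j hij)
    rcases hvi with hvi | ⟨hui, hvx⟩
    · rcases hvj with hvj | ⟨_, hvx⟩
      · exact hd hvi hvj
      · rw [hvx] at hvi; exact hxf i hvi
    · rcases hvj with hvj | ⟨huj, _⟩
      · rw [hvx] at hvj; exact hxf j hvj
      · exact hd hui huj
  · intro i
    -- every step in H lifts to reachability in G'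
    have hstep : ∀ (a b : V) (ha : a ∈ f i) (hb : b ∈ f i), H.Adj a b →
        (G.induce (f' i)).Reachable ⟨a, (hmem i a).mpr (Or.inl ha)⟩ ⟨b, (hmem i b).mpr (Or.inl hb)⟩ := by
      intro a b ha hb hab
      rcases hH a b hab with h | ⟨hau, hxb⟩ | ⟨hbu, hax⟩
      · exact SimpleGraph.Adj.reachable h
      · have hx' : x ∈ f' i := (hmem i x).mpr (Or.inr ⟨hau ▸ ha, rfl⟩)
        have r1 : (G.induce (f' i)).Adj ⟨a, (hmem i a).mpr (Or.inl ha)⟩ ⟨x, hx'⟩ := by
          show G.Adj a x
          rw [hau]; exact hxu.symm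
        have r2 : (G.induce (f' i)).Adj ⟨x, hx'⟩ ⟨b, (hmem i b).mpr (Or.inl hb)⟩ := hxb
        exact r1.reachable.trans r2.reachable
      · have hx' : x ∈ f' i := (hmem i x).mpr (Or.inr ⟨hbu ▸ hb, rfl⟩)
        have r1 : (G.induce (f' i)).Adj ⟨a, (hmem i a).mpr (Or.inl ha)⟩ ⟨x, hx'⟩ := hax
        have r2 : (G.induce (f' i)).Adj ⟨x, hx'⟩ ⟨b, (hmem i b).mpr (Or.inl hb)⟩ := by
          show G.Adj x b
          rw [hbu]; exact hxu
        exact r1.reachable.trans r2.reachable
    have hreach : ∀ a b : f i, (H.induce (f i)).Reachable a b →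
        (G.induce (f' i)).Reachable ⟨a.1, (hmem i a.1).mpr (Or.inl a.2)⟩
          ⟨b.1, (hmem i b.1).mpr (Or.inl b.2)⟩ := by
      intro a b ⟨p⟩
      induction p with
      | nil => exact SimpleGraph.Reachable.refl _
      | @cons a b c hadj _ ih => exact (hstep a.1 b.1 a.2 b.2 hadj).trans ih
    obtain ⟨v0⟩ := (h2 i).nonempty
    rw [SimpleGraph.connected_iff_exists_forall_reachable]
    refine ⟨⟨v0.1, (hmem i v0.1).mpr (Or.inl v0.2)⟩, ?_⟩
    rintro ⟨v, hv⟩
    rcases (hmem i v).mp hv with hv' | ⟨hu, hvx⟩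
    · exact hreach v0 ⟨v, hv'⟩ ((h2 i).preconnected _ _)
    · have r1 := hreach v0 ⟨u, hu⟩ ((h2 i).preconnected _ _)
      have r2 : (G.induce (f' i)).Adj ⟨u, (hmem i u).mpr (Or.inl hu)⟩ ⟨v, hv⟩ := by
        show G.Adj u v
        rw [hvx]; exact hxu.symm
      exact r1.trans r2.reachable
  · intro i j hij
    obtain ⟨a, ha, b, hb, hab⟩ := h3 i j hij
    rcases hH a b hab with h | ⟨hau, hxb⟩ | ⟨hbu, hax⟩
    · exact ⟨a, (hmem i a).mpr (Or.inl ha), b, (hmem j b).mpr (Or.inl hb), h⟩
    · exact ⟨x, (hmem i x).mpr (Or.inr ⟨hau ▸ ha, rfl⟩), b, (hmem j b).mpr (Or.inl hb), hxb⟩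
    · exact ⟨a, (hmem i a).mpr (Or.inl ha), x, (hmem j x).mpr (Or.inr ⟨hbu ▸ hb, rfl⟩), hax⟩

lemma pick_pair {H : SimpleGraph V} {u : V} (h : ∀ z, z ≠ u → (∃ b, H.Adj z b) → deg3 H z)
    (hz : ∃ z, z ≠ u ∧ ∃ b, H.Adj z b) :
    ∃ u' w', H.Adj u' w' ∧ (∀ z, z ≠ u' → z ≠ w' → (∃ b, H.Adj z b) → deg3 H z) ∧
      ∃ z, z ≠ u' ∧ z ≠ w' ∧ ∃ b, H.Adj z b := by
  by_cases hu : ∃ w', H.Adj u w'
  · obtain ⟨w', hw'⟩ := hu
    refine ⟨u, w', hw', fun z h1 _ h3 => h z h1 h3, ?_⟩
    have hd := h w' hw'.ne' ⟨u, hw'.symm⟩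
    obtain ⟨c, hc1, hc2, hc3⟩ := hd u u
    exact ⟨c, hc1, hc3.ne', w', hc3.symm⟩
  · push Not at hu
    obtain ⟨z0, hz0, w', hw'⟩ := hz
    refine ⟨z0, w', hw', fun z h1 h2 h3 => ?_, ?_⟩
    · apply h z _ h3
      rintro rfl
      obtain ⟨b, hb⟩ := h3
      exact hu b hb
    · obtain ⟨c, hc1, _, hc3⟩ := h z0 hz0 ⟨w', hw'⟩ w' w'
      exact ⟨c, hc3.ne', hc1, z0, hc3.symm⟩

/-- graph with `u` and `w` removed -/
def del2 (G : SimpleGraph V) (u w : V) : SimpleGraph V where
  Adj a b := G.Adj a b ∧ a ≠ u ∧ a ≠ w ∧ b ≠ u ∧ b ≠ w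
  symm := ⟨fun _ _ h => ⟨h.1.symm, h.2.2.2.1, h.2.2.2.2, h.2.1, h.2.2.1⟩⟩
  loopless := ⟨fun _ h => G.irrefl h.1⟩

lemma del2_support {G : SimpleGraph V} {u w a b : V} (p : (del2 G u w).Walk a b)
    (ha : a ≠ u ∧ a ≠ w) : ∀ v ∈ p.support, v ≠ u ∧ v ≠ w := by
  induction p with
  | nil => intro v hv; simp at hv; rw [hv]; exact ha
  | cons hadj p' ih =>
    intro v hv
    rw [SimpleGraph.Walk.support_cons, List.mem_cons] at hv
    rcases hv with hv | hv
    · rw [hv]; exact ha
    · exact ih ⟨hadj.2.2.2.1, hadj.2.2.2.2⟩ v hv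

/-- the contraction of `w` into `u` (with `w` left isolated) -/
def contr (G : SimpleGraph V) (u w : V) : SimpleGraph V where
  Adj a b := a ≠ b ∧ a ≠ w ∧ b ≠ w ∧ (G.Adj a b ∨ (a = u ∧ G.Adj w b) ∨ (b = u ∧ G.Adj a w))
  symm := ⟨fun a b h => ⟨h.1.symm, h.2.2.1, h.2.1, by
    rcases h.2.2.2 with h1 | ⟨h1, h2⟩ | ⟨h1, h2⟩
    · exact Or.inl h1.symm
    · exact Or.inr (Or.inr ⟨h1, h2.symm⟩)
    · exact Or.inr (Or.inl ⟨h1, h2.symm⟩)⟩⟩
  loopless := ⟨fun _ h => h.1 rfl⟩

/-- restriction to the component `K` together with `u, w` -/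
def restr (G : SimpleGraph V) (S : Set V) : SimpleGraph V where
  Adj a b := G.Adj a b ∧ a ∈ S ∧ b ∈ S
  symm := ⟨fun _ _ h => ⟨h.1.symm, h.2.2, h.2.1⟩⟩
  loopless := ⟨fun _ h => G.irrefl h.1⟩

/-- the main induction -/
theorem claim [Fintype V] : ∀ (n : ℕ) (G : SimpleGraph V) (S : Finset V), S.card ≤ n →
    (∀ v, (∃ b, G.Adj v b) → v ∈ S) → ∀ u w, G.Adj u w →
    (∀ z, z ≠ u → z ≠ w → (∃ b, G.Adj z b) → deg3 G z) →
    (∃ z, z ≠ u ∧ z ≠ w ∧ ∃ b, G.Adj z b) → HasK4 G := by
  classical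
  intro n
  induction n with
  | zero =>
    intro G S hS hsupp u w huw _ _
    have h0 : S = ∅ := Finset.card_eq_zero.mp (Nat.le_zero.mp hS)
    have := hsupp u ⟨w, huw⟩
    rw [h0] at this
    simp at this
  | succ n ih =>
    intro G S hS hsupp u w huw hdeg hz
    by_cases hcn : ∃ z1 z2, z1 ≠ z2 ∧ G.Adj u z1 ∧ G.Adj w z1 ∧ G.Adj u z2 ∧ G.Adj w z2
    · obtain ⟨z1, z2, hz12, hu1, hw1, hu2, hw2⟩ := hcn
      have h1u : z1 ≠ u := hu1.ne'
      have h1w : z1 ≠ w := hw1.ne'
      have h2u : z2 ≠ u := hu2.ne'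
      have h2w : z2 ≠ w := hw2.ne'
      by_cases hr : (del2 G u w).Reachable z1 z2
      · obtain ⟨p, hp⟩ := hr.exists_isPath
        cases p with
        | nil => exact absurd rfl hz12
        | @cons _ y _ hadj p' =>
          rw [SimpleGraph.Walk.cons_isPath_iff] at hp
          have hsup := del2_support p' ⟨hadj.2.2.2.1, hadj.2.2.2.2⟩
          obtain ⟨f, hf0, hf1, hf2, hf3⟩ : ∃ f : Fin 4 → Set V, f 0 = {u} ∧ f 1 = {w} ∧
              f 2 = {z1} ∧ f 3 = {v | v ∈ p'.support} :=
            ⟨![{u}, {w}, {z1}, {v | v ∈ p'.support}], rfl, rfl, rfl, rfl⟩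
          have hle : del2 G u w ≤ G := fun a b h => h.1
          have hsing : ∀ v : V, (G.induce ({v} : Set V)).Connected := by
            intro v
            have : Nonempty ({v} : Set V) := ⟨⟨v, rfl⟩⟩
            have : Subsingleton ({v} : Set V) := ⟨fun a b => Subtype.ext (a.2.trans b.2.symm)⟩
            exact SimpleGraph.Connected.of_subsingleton
          have hy3 : y ∈ f 3 := by rw [hf3]; exact p'.start_mem_support
          have hz3 : z2 ∈ f 3 := by rw [hf3]; exact p'.end_mem_support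
          have hu3 : u ∉ f 3 := by rw [hf3]; intro h; exact (hsup u h).1 rfl
          have hw3 : w ∉ f 3 := by rw [hf3]; intro h; exact (hsup w h).2 rfl
          have h13 : z1 ∉ f 3 := by rw [hf3]; exact hp.2
          have hu0 : u ∈ f 0 := by rw [hf0]; rfl
          have hw1' : w ∈ f 1 := by rw [hf1]; rfl
          have hz2' : z1 ∈ f 2 := by rw [hf2]; rfl
          refine ⟨f, ?_, ?_, ?_⟩
          · have key : ∀ i j : Fin 4, i < j → Disjoint (f i) (f j) := by
              intro i j hij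
              fin_cases i <;> fin_cases j <;> first | (exfalso; revert hij; decide) | skip
              · show Disjoint (f 0) (f 1)
                rw [hf0, hf1]; simpa using huw.ne
              · show Disjoint (f 0) (f 2)
                rw [hf0, hf2]; simpa using h1u.symm
              · show Disjoint (f 0) (f 3)
                rw [hf0, Set.disjoint_singleton_left]; exact hu3
              · show Disjoint (f 1) (f 2)
                rw [hf1, hf2]; simpa using h1w.symm
              · show Disjoint (f 1) (f 3)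
                rw [hf1, Set.disjoint_singleton_left]; exact hw3
              · show Disjoint (f 2) (f 3)
                rw [hf2, Set.disjoint_singleton_left]; exact h13
            intro i j hij
            rcases lt_or_gt_of_ne hij with h | h
            · exact key i j h
            · exact (key j i h).symm
          · intro i
            fin_cases i
            · show (G.induce (f 0)).Connected
              rw [hf0]; exact hsing u
            · show (G.induce (f 1)).Connected
              rw [hf1]; exact hsing w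
            · show (G.induce (f 2)).Connected
              rw [hf2]; exact hsing z1
            · show (G.induce (f 3)).Connected
              rw [hf3]
              exact (p'.connected_induce_support).mono (fun a b hab => hle hab)
          · have key : ∀ i j : Fin 4, i < j → ∃ a ∈ f i, ∃ b ∈ f j, G.Adj a b := by
              intro i j hij
              fin_cases i <;> fin_cases j <;> first | (exfalso; revert hij; decide) | skip
              · exact ⟨u, hu0, w, hw1', huw⟩
              · exact ⟨u, hu0, z1, hz2', hu1⟩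
              · exact ⟨u, hu0, z2, hz3, hu2⟩
              · exact ⟨w, hw1', z1, hz2', hw1⟩
              · exact ⟨w, hw1', z2, hz3, hw2⟩
              · exact ⟨z1, hz2', y, hy3, hadj.1⟩
            intro i j hij
            rcases lt_or_gt_of_ne hij with h | h
            · exact key i j h
            · obtain ⟨a, ha, b, hb, hab⟩ := key j i h
              exact ⟨b, hb, a, ha, hab.symm⟩
      · -- restrict to the component of z1
        obtain ⟨K, hK⟩ : ∃ K : Set V, K = {v | (del2 G u w).Reachable z1 v ∨ v = u ∨ v = w} := ⟨_, rfl⟩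
        have hmemK : ∀ v, v ∈ K ↔ (del2 G u w).Reachable z1 v ∨ v = u ∨ v = w := by
          intro v; rw [hK]; rfl
        have hz2K : z2 ∉ K := by
          rw [hmemK]
          rintro (h | h | h)
          · exact hr h
          · exact h2u h
          · exact h2w h
        have hle : restr G K ≤ G := fun a b h => h.1
        have hclosed : ∀ v c, v ∈ K → v ≠ u → v ≠ w → G.Adj v c → c ∈ K := by
          intro v c hv hvu hvw hvc
          by_cases hcu : c = u
          · rw [hmemK]; exact Or.inr (Or.inl hcu)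
          by_cases hcw : c = w
          · rw [hmemK]; exact Or.inr (Or.inr hcw)
          rw [hmemK] at hv ⊢
          left
          rcases hv with hv | hv | hv
          · have : (del2 G u w).Adj v c := ⟨hvc, hvu, hvw, hcu, hcw⟩
            exact hv.trans this.reachable
          · exact absurd hv hvu
          · exact absurd hv hvw
        refine HasK4.mono hle (ih (restr G K) (S.erase z2) ?_ ?_ u w ?_ ?_ ?_)
        · have : z2 ∈ S := hsupp z2 ⟨u, hu2.symm⟩
          rw [Finset.card_erase_of_mem this]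
          omega
        · rintro v ⟨b, hb⟩
          rw [Finset.mem_erase]
          refine ⟨?_, hsupp v ⟨b, hb.1⟩⟩
          rintro rfl
          exact hz2K hb.2.1
        · exact ⟨huw, (hmemK u).mpr (Or.inr (Or.inl rfl)), (hmemK w).mpr (Or.inr (Or.inr rfl))⟩
        · rintro z hzu hzw ⟨b, hb⟩
          have hd := hdeg z hzu hzw ⟨b, hb.1⟩
          intro a b'
          obtain ⟨c, hc1, hc2, hc3⟩ := hd a b'
          exact ⟨c, hc1, hc2, hc3, hb.2.1, hclosed z c hb.2.1 hzu hzw hc3⟩
        · have hz1K : z1 ∈ K := (hmemK z1).mpr (Or.inl (SimpleGraph.Reachable.refl _))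
          exact ⟨z1, h1u, h1w, u, hu1.symm, hz1K, (hmemK u).mpr (Or.inr (Or.inl rfl))⟩
    · -- at most one common neighbour: contract
      have hcn' : ∀ a b, G.Adj u a → G.Adj w a → G.Adj u b → G.Adj w b → a = b := by
        intro a b h1 h2 h3 h4
        by_contra hab
        exact hcn ⟨a, b, hab, h1, h2, h3, h4⟩
      have hlift : HasK4 (contr G u w) → HasK4 G := by
        apply lift_contract huw.symm
        · intro b hb; exact hb.2.1 rfl
        · intro a b hab
          exact hab.2.2.2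
      have hcard : (S.erase w).card ≤ n := by
        have : w ∈ S := hsupp w ⟨u, huw.symm⟩
        rw [Finset.card_erase_of_mem this]
        omega
      have hsupp' : ∀ v, (∃ b, (contr G u w).Adj v b) → v ∈ S.erase w := by
        rintro v ⟨b, hb⟩
        rw [Finset.mem_erase]
        refine ⟨hb.2.1, ?_⟩
        rcases hb.2.2.2 with h | ⟨h, _⟩ | ⟨_, h⟩
        · exact hsupp v ⟨b, h⟩
        · rw [h]; exact hsupp u ⟨w, huw⟩
        · exact hsupp v ⟨w, h⟩
      -- degrees in the contraction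
      have hdeg' : ∀ v, v ≠ u → ¬ (G.Adj u v ∧ G.Adj w v) → (∃ b, (contr G u w).Adj v b) →
          deg3 (contr G u w) v := by
        rintro v hvu hvc ⟨b0, hb0⟩
        have hvw : v ≠ w := hb0.2.1
        have hvn : ∃ b, G.Adj v b := by
          rcases hb0.2.2.2 with h | ⟨h, _⟩ | ⟨_, h⟩
          · exact ⟨_, h⟩
          · exact absurd h hvu
          · exact ⟨_, h⟩
        have hd := hdeg v hvu hvw hvn
        intro a b
        by_cases hwv : G.Adj v w
        · have huv : ¬ G.Adj v u := fun h => hvc ⟨h.symm, hwv.symm⟩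
          obtain ⟨c, hc1, hc2, hc3⟩ := hd (if a = u then w else a) (if b = u then w else b)
          by_cases hcw : c = w
          · refine ⟨u, ?_, ?_, ?_⟩
            · rintro rfl; rw [if_pos rfl] at hc1; exact hc1 hcw
            · rintro rfl; rw [if_pos rfl] at hc2; exact hc2 hcw
            · exact ⟨hvu, hvw, huw.ne, Or.inr (Or.inr ⟨rfl, hwv⟩)⟩
          · have hcu : c ≠ u := by rintro rfl; exact huv hc3
            refine ⟨c, ?_, ?_, ?_⟩
            · by_cases ha : a = u
              · rw [ha]; exact hcu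
              · rw [if_neg ha] at hc1; exact hc1
            · by_cases hb : b = u
              · rw [hb]; exact hcu
              · rw [if_neg hb] at hc2; exact hc2
            · exact ⟨hc3.ne, hvw, hcw, Or.inl hc3⟩
        · obtain ⟨c, hc1, hc2, hc3⟩ := hd a b
          refine ⟨c, hc1, hc2, hc3.ne, hvw, ?_, Or.inl hc3⟩
          rintro rfl; exact hwv hc3
      apply hlift
      by_cases hc1 : ∃ z, G.Adj u z ∧ G.Adj w z
      · obtain ⟨z, huz, hwz⟩ := hc1
        have hzu : z ≠ u := huz.ne'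
        have hzw : z ≠ w := hwz.ne'
        refine ih (contr G u w) (S.erase w) hcard hsupp' u z ?_ ?_ ?_
        · exact ⟨huz.ne, huw.ne, hzw, Or.inl huz⟩
        · intro v hvu hvz hvn
          exact hdeg' v hvu (fun h => hvz (hcn' v z h.1 h.2 huz hwz)) hvn
        · obtain ⟨c, hcu, hcw, hcz⟩ := hdeg z hzu hzw ⟨u, huz.symm⟩ u w
          exact ⟨c, hcu, hcz.ne', z, hcz.ne', hcw, hzw, Or.inl hcz.symm⟩
      · have hall : ∀ z, z ≠ u → (∃ b, (contr G u w).Adj z b) → deg3 (contr G u w) z :=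
          fun z hzu hzn => hdeg' z hzu (fun h => hc1 ⟨z, h⟩) hzn
        have hex : ∃ z, z ≠ u ∧ ∃ b, (contr G u w).Adj z b := by
          obtain ⟨z, hzu, hzw, hzn⟩ := hz
          obtain ⟨c, hc1, _, hc3⟩ := hdeg z hzu hzw hzn w w
          exact ⟨z, hzu, c, hc3.ne, hzw, hc1, Or.inl hc3⟩
        obtain ⟨u', w', h1, h2, h3⟩ := pick_pair hall hex
        exact ih (contr G u w) (S.erase w) hcard hsupp' u' w' h1 h2 h3

/-- a graph with an edge and without `K₄` minor has a non-isolated vertex with at most two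
neighbours. -/
theorem exists_low [Finite V] (G : SimpleGraph V) (hK : ¬ HasK4 G) (hE : ∃ a b, G.Adj a b) :
    ∃ x a b, (∃ c, G.Adj x c) ∧ ∀ c, G.Adj x c → c = a ∨ c = b := by
  classical
  have := Fintype.ofFinite V
  by_contra hcon
  have hall : ∀ x, (∃ c, G.Adj x c) → deg3 G x := by
    intro x hx a b
    by_contra h
    push Not at h
    apply hcon
    refine ⟨x, a, b, hx, fun c hc => ?_⟩
    by_contra hcab
    push Not at hcab
    exact h c hcab.1 hcab.2 hc
  obtain ⟨u, w, huw⟩ := hE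
  obtain ⟨u', w', h1, h2, h3⟩ := pick_pair (H := G) (u := u) (fun z _ h => hall z h)
    ⟨w, huw.ne', u, huw.symm⟩
  exact hK (claim _ G Finset.univ le_rfl (fun _ _ => Finset.mem_univ _) u' w' h1 h2 h3)

end Pool.Agent.Lib.MP_9ef6ec_co
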