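import Mathlib

set_option autoImplicit false

namespace Pool.Agent.Lib.MP_9ef6ec_co

open Finset Polynomial

variable {V : Type} [Fintype V] [DecidableEq V]

/-- off-diagonal elements of `Sym2 V`. -/
def offd (V : Type) [Fintype V] [DecidableEq V] : Finset (Sym2 V) :=
  Finset.univ.filter (fun e => ¬ e.IsDiag)

/-- number of connected components of the graph with edge set `A`. -/
noncomputable def kk (A : Finset (Sym2 V)) : ℕ :=
  Nat.card (SimpleGraph.fromEdgeSet (↑A : Set (Sym2 V))).ConnectedComponent

/-- multivariate Fortuin-Kasteleyn polynomial in `q` with edge weights `w`. -/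
noncomputable def ZP (w : Sym2 V → ℂ) : ℂ[X] :=
  ∑ A ∈ (offd V).powerset, C (∏ e ∈ A, w e) * X ^ (kk A)

/-- contribution of a colouring. -/
noncomputable def FF {N : ℕ} (w : Sym2 V → ℂ) (σ : V → Fin N) : ℂ :=
  ∏ e ∈ offd V, (1 + if (e.map σ).IsDiag then w e else 0)

omit [Fintype V] [DecidableEq V] in
lemma mono_iff {N : ℕ} (σ : V → Fin N) (x y : V) :
    ((s(x, y) : Sym2 V).map σ).IsDiag ↔ σ x = σ y := by
  rw [Sym2.map_mk]; exact Sym2.mk_isDiag_iff

omit [Fintype V] [DecidableEq V] in
lemma const_of_mono {N : ℕ} (A : Finset (Sym2 V)) (σ : V → Fin N)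
    (h : ∀ e ∈ A, (e.map σ).IsDiag) {x y : V}
    (hr : (SimpleGraph.fromEdgeSet (↑A : Set (Sym2 V))).Reachable x y) : σ x = σ y := by
  obtain ⟨p⟩ := hr
  induction p with
  | nil => rfl
  | cons hadj _ ih =>
    rw [← ih]
    have h1 := h _ (by simpa using (SimpleGraph.fromEdgeSet_adj _).mp hadj |>.1)
    exact (mono_iff σ _ _).mp h1

/-- colourings constant on the edges of `A` are functions on components. -/
noncomputable def colEquiv {N : ℕ} (A : Finset (Sym2 V)) :
    {σ : V → Fin N // ∀ e ∈ A, (e.map σ).IsDiag} ≃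
      ((SimpleGraph.fromEdgeSet (↑A : Set (Sym2 V))).ConnectedComponent → Fin N) where
  toFun σ := SimpleGraph.ConnectedComponent.lift σ.1
    (fun _ _ p _ => const_of_mono A σ.1 σ.2 ⟨p⟩)
  invFun φ := ⟨fun x => φ (SimpleGraph.connectedComponentMk _ x), by
    intro e he
    induction e using Sym2.ind with
    | _ x y =>
      rw [mono_iff]
      by_cases hxy : x = y
      · rw [hxy]
      · congr 1
        apply SimpleGraph.ConnectedComponent.connectedComponentMk_eq_of_adj
        rw [SimpleGraph.fromEdgeSet_adj]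
        exact ⟨by simpa using he, hxy⟩⟩
  left_inv σ := by
    ext x
    rfl
  right_inv φ := by
    ext c
    induction c using SimpleGraph.ConnectedComponent.ind with
    | _ v => rfl

lemma card_mono {N : ℕ} (A : Finset (Sym2 V)) :
    ((Finset.univ.filter (fun σ : V → Fin N => ∀ e ∈ A, (e.map σ).IsDiag)).card : ℕ)
      = N ^ (kk A) := by
  classical
  have h1 : Nat.card {σ : V → Fin N // ∀ e ∈ A, (e.map σ).IsDiag} =
      (Finset.univ.filter (fun σ : V → Fin N => ∀ e ∈ A, (e.map σ).IsDiag)).card := by
    rw [Nat.card_eq_fintype_card, Fintype.card_subtype]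
  rw [← h1, Nat.card_congr (colEquiv A), Nat.card_fun, Nat.card_eq_fintype_card, Fintype.card_fin]
  rfl

/-- evaluation of the FK polynomial at a natural number is the Potts sum. -/
lemma ZP_eval_nat (w : Sym2 V → ℂ) (N : ℕ) :
    (ZP w).eval (N : ℂ) = ∑ σ : V → Fin N, FF w σ := by
  classical
  unfold FF
  simp_rw [Finset.prod_one_add]
  rw [Finset.sum_comm]
  unfold ZP
  rw [Polynomial.eval_finsetSum]
  apply Finset.sum_congr rfl
  intro A _
  rw [eval_mul, eval_C, eval_pow, eval_X]
  have h2 : ∀ σ : V → Fin N, (∏ e ∈ A, if (e.map σ).IsDiag then w e else 0)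
      = if (∀ e ∈ A, (e.map σ).IsDiag) then ∏ e ∈ A, w e else 0 := by
    intro σ
    split_ifs with h
    · apply Finset.prod_congr rfl
      intro e he
      rw [if_pos (h e he)]
    · push Not at h
      obtain ⟨e, he, hne⟩ := h
      exact Finset.prod_eq_zero he (if_neg hne)
  simp_rw [h2]
  rw [← Finset.sum_filter, Finset.sum_const, card_mono, nsmul_eq_mul]
  push_cast
  ring

lemma poly_ext_nat (p r : ℂ[X]) (h : ∀ N : ℕ, p.eval (N : ℂ) = r.eval (N : ℂ)) : p = r := by
  apply Polynomial.eq_of_infinite_eval_eq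
  apply Set.Infinite.mono (s := Set.range (fun n : ℕ => (n : ℂ)))
  · rintro _ ⟨n, rfl⟩
    exact h n
  · exact Set.infinite_range_of_injective Nat.cast_injective

/-- setting a vanishing weight. -/
lemma FF_update {N : ℕ} (w : Sym2 V → ℂ) (e : Sym2 V) (he : ¬ e.IsDiag) (hw : w e = 0) (b : ℂ)
    (σ : V → Fin N) :
    FF (Function.update w e b) σ = FF w σ * (1 + if (e.map σ).IsDiag then b else 0) := by
  unfold FF
  have hmem : e ∈ offd V := by simp [offd, he]
  rw [← Finset.mul_prod_erase _ _ hmem, ← Finset.mul_prod_erase (offd V) (fun e => 1 + if (e.map σ).IsDiag then w e else 0) hmem]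
  have h1 : ∏ x ∈ (offd V).erase e, (1 + if (x.map σ).IsDiag then Function.update w e b x else 0)
      = ∏ x ∈ (offd V).erase e, (1 + if (x.map σ).IsDiag then w x else 0) := by
    apply Finset.prod_congr rfl
    intro x hx
    rw [Function.update_of_ne (Finset.ne_of_mem_erase hx)]
  rw [h1, Function.update_self, hw]
  simp
  ring

/-- If all weights at `x` vanish then `FF` does not depend on the colour of `x`. -/
lemma FF_indep {N : ℕ} (w : Sym2 V → ℂ) (x : V) (hx : ∀ e, x ∈ e → w e = 0)
    (σ : V → Fin N) (c : Fin N) : FF w (Function.update σ x c) = FF w σ := by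
  unfold FF
  apply Finset.prod_congr rfl
  intro e _
  by_cases hxe : x ∈ e
  · rw [hx e hxe]; simp
  · have : e.map (Function.update σ x c) = e.map σ := by
      apply Sym2.map_congr
      intro y hy
      have : y ≠ x := by rintro rfl; exact hxe hy
      rw [Function.update_of_ne this]
    rw [this]

/-- summing out one coordinate -/
lemma sum_out {N : ℕ} (x : V) (F : (V → Fin N) → ℂ) :
    (N : ℂ) * ∑ σ : V → Fin N, F σ = ∑ σ : V → Fin N, ∑ c : Fin N, F (Function.update σ x c) := by
  classical
  have h1 : ∑ σ : V → Fin N, F σ =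
      ∑ p : Fin N × ({j // j ≠ x} → Fin N), F ((Equiv.funSplitAt x (Fin N)).symm p) := by
    rw [← (Equiv.funSplitAt x (Fin N)).symm.sum_comp]
  have h2 : ∑ σ : V → Fin N, ∑ c : Fin N, F (Function.update σ x c) =
      ∑ p : Fin N × ({j // j ≠ x} → Fin N), ∑ c : Fin N,
        F (Function.update ((Equiv.funSplitAt x (Fin N)).symm p) x c) := by
    rw [← (Equiv.funSplitAt x (Fin N)).symm.sum_comp]
  have h3 : ∀ (p : Fin N × ({j // j ≠ x} → Fin N)) (c : Fin N),
      Function.update ((Equiv.funSplitAt x (Fin N)).symm p) x c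
        = (Equiv.funSplitAt x (Fin N)).symm (c, p.2) := by
    intro p c
    ext j
    by_cases hj : j = x
    · subst hj
      simp [Equiv.funSplitAt, Equiv.piSplitAt]
    · rw [Function.update_of_ne hj]
      simp [Equiv.funSplitAt, Equiv.piSplitAt, hj]
  rw [h1, h2]
  simp_rw [h3]
  rw [Fintype.sum_prod_type, Fintype.sum_prod_type]
  simp only [Finset.sum_const, Finset.card_univ, Fintype.card_fin, nsmul_eq_mul]
  congr 1
  rw [Finset.sum_comm]

/-- removal of a vertex of degree one. -/
lemma elim_one (w : Sym2 V → ℂ) (x u : V) (hxu : x ≠ u) (hx : ∀ e, x ∈ e → w e = 0) (v₁ : ℂ) (q : ℂ) :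
    q * (ZP (Function.update w s(x, u) v₁)).eval q = (q + v₁) * (ZP w).eval q := by
  have hpoly : X * ZP (Function.update w s(x, u) v₁) = (X + C v₁) * ZP w := by
    apply poly_ext_nat
    intro N
    rw [eval_mul, eval_X, eval_mul, eval_add, eval_X, eval_C, ZP_eval_nat, ZP_eval_nat, sum_out x,
      Finset.mul_sum]
    apply Finset.sum_congr rfl
    intro σ _
    have hd : ¬ (s(x, u) : Sym2 V).IsDiag := by simpa using hxu
    have h1 : ∀ c : Fin N, FF (Function.update w s(x, u) v₁) (Function.update σ x c)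
        = FF w σ * (1 + if c = σ u then v₁ else 0) := by
      intro c
      rw [FF_update w _ hd (hx _ (by simp)), FF_indep w x hx]
      congr 2
      apply if_congr _ rfl rfl
      rw [mono_iff, Function.update_self, Function.update_of_ne (Ne.symm hxu)]
    simp_rw [h1]
    rw [← Finset.mul_sum, Finset.sum_add_distrib]
    simp
    ring
  have := congrArg (Polynomial.eval q) hpoly
  simpa using this

/-- the affine dependence on a weight. -/
lemma ZP_affine (w : Sym2 V → ℂ) (e : Sym2 V) (he : ¬ e.IsDiag) (hw : w e = 0) (b q : ℂ) :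
    (ZP (Function.update w e b)).eval q = (ZP w).eval q +
      b * ((ZP (Function.update w e 1)).eval q - (ZP w).eval q) := by
  have hpoly : ZP (Function.update w e b) = ZP w + C b * (ZP (Function.update w e 1) - ZP w) := by
    apply poly_ext_nat
    intro N
    rw [eval_add, eval_mul, eval_sub, eval_C, ZP_eval_nat, ZP_eval_nat, ZP_eval_nat]
    simp_rw [FF_update w e he hw]
    rw [← Finset.sum_sub_distrib, Finset.mul_sum, ← Finset.sum_add_distrib]
    apply Finset.sum_congr rfl
    intro σ _
    split_ifs <;> ring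
  have := congrArg (Polynomial.eval q) hpoly
  simpa using this

/-- removal of a vertex of degree two. -/
lemma elim_two (w : Sym2 V → ℂ) (x u t : V) (hxu : x ≠ u) (hxt : x ≠ t) (hut : u ≠ t)
    (hx : ∀ e, x ∈ e → w e = 0) (hut0 : w s(u, t) = 0) (b v₁ v₂ : ℂ) (q : ℂ)
    (hA : q + v₁ + v₂ ≠ 0) :
    q * (ZP (Function.update (Function.update (Function.update w s(u, t) b) s(x, u) v₁)
        s(x, t) v₂)).eval q
      = (q + v₁ + v₂) *
        (ZP (Function.update w s(u, t) (b + (1 + b) * (v₁ * v₂ / (q + v₁ + v₂))))).eval q := by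
  have hdut : ¬ (s(u, t) : Sym2 V).IsDiag := by simpa using hut
  have hdxu : ¬ (s(x, u) : Sym2 V).IsDiag := by simpa using hxu
  have hdxt : ¬ (s(x, t) : Sym2 V).IsDiag := by simpa using hxt
  have hne1 : (s(x, u) : Sym2 V) ≠ s(u, t) := by
    intro h
    rw [Sym2.eq_iff] at h
    rcases h with ⟨h1, _⟩ | ⟨h1, _⟩
    · exact hxu h1
    · exact hxt h1
  have hne2 : (s(x, t) : Sym2 V) ≠ s(u, t) := by
    intro h
    rw [Sym2.eq_iff] at h
    rcases h with ⟨h1, _⟩ | ⟨h1, _⟩
    · exact hxu h1
    · exact hxt h1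
  have hne3 : (s(x, t) : Sym2 V) ≠ s(x, u) := by
    intro h
    rw [Sym2.eq_iff] at h
    rcases h with ⟨_, h1⟩ | ⟨h1, _⟩
    · exact hut h1.symm
    · exact hxu h1
  have hpoly : X * ZP (Function.update (Function.update (Function.update w s(u, t) b) s(x, u) v₁)
        s(x, t) v₂)
      = (X + C (v₁ + v₂)) * ZP w + (C b * (X + C (v₁ + v₂)) + C ((1 + b) * (v₁ * v₂))) *
          (ZP (Function.update w s(u, t) 1) - ZP w) := by
    apply poly_ext_nat
    intro N
    simp only [eval_mul, eval_X, eval_add, eval_sub, eval_C]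
    rw [ZP_eval_nat, ZP_eval_nat, ZP_eval_nat, sum_out x]
    rw [← Finset.sum_sub_distrib, Finset.mul_sum, Finset.mul_sum, ← Finset.sum_add_distrib]
    apply Finset.sum_congr rfl
    intro σ _
    have h1 : ∀ c : Fin N, FF (Function.update (Function.update (Function.update w s(u, t) b)
          s(x, u) v₁) s(x, t) v₂) (Function.update σ x c)
        = FF w σ * (1 + if σ u = σ t then b else 0) * ((1 + if c = σ u then v₁ else 0) *
            (1 + if c = σ t then v₂ else 0)) := by
      intro c
      rw [FF_update _ _ hdxt, FF_update _ _ hdxu, FF_update _ _ hdut hut0, FF_indep w x hx]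
      · simp_rw [mono_iff]
        rw [Function.update_self, Function.update_of_ne (Ne.symm hxu),
          Function.update_of_ne (Ne.symm hxt)]
        ring
      · rw [Function.update_of_ne hne1]
        exact hx _ (by simp)
      · rw [Function.update_of_ne hne3, Function.update_of_ne hne2]
        exact hx _ (by simp)
    simp_rw [h1]
    rw [← Finset.mul_sum, FF_update _ _ hdut hut0]
    have h2 : ∑ c : Fin N, ((1 + if c = σ u then v₁ else 0) * (1 + if c = σ t then v₂ else 0))
        = (N : ℂ) + v₁ + v₂ + if σ u = σ t then v₁ * v₂ else 0 := by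
      have h3 : ∀ c : Fin N, ((1 + if c = σ u then v₁ else 0) * (1 + if c = σ t then v₂ else 0))
          = 1 + (if c = σ u then v₁ else 0) + (if c = σ t then v₂ else 0)
            + (if c = σ u then (if σ u = σ t then v₁ * v₂ else 0) else 0) := by
        intro c
        by_cases h4 : c = σ u
        · subst h4
          by_cases h5 : σ u = σ t
          · simp [h5]; ring
          · simp [h5]
        · simp [h4]
      simp_rw [h3]
      rw [Finset.sum_add_distrib, Finset.sum_add_distrib, Finset.sum_add_distrib]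
      simp
    rw [h2]
    simp only [mono_iff]
    split_ifs <;> ring
  have h5 := congrArg (Polynomial.eval q) hpoly
  simp only [eval_mul, eval_X, eval_add, eval_sub, eval_C] at h5
  have h6 := ZP_affine w _ hdut hut0 (b + (1 + b) * (v₁ * v₂ / (q + v₁ + v₂))) q
  rw [h5, h6]
  field_simp
  ring

end Pool.Agent.Lib.MP_9ef6ec_co
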