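import Mathlib

set_option autoImplicit false

namespace Pool.Agent.Lib.MP_9ef6ec_co

/-- Real inequality behind the centre bound. -/
lemma real_key (s α c r β C S x m : ℝ) (hs0 : 0 < s) (hs1 : s < 1 / 3) (hα : α = 5 * s / 9)
    (hc : c = (s ^ 2 + α) / (2 * (1 + s))) (hr : r = (2 * s + s ^ 2 - α) / (2 * (1 + s)))
    (hβ : 0 < β) (hβ2 : β ^ 2 = 1 + α) (hC : C = (1 + c) / β) (hS : S = r / β)
    (hx : 0 ≤ x) (hm1 : 1 - α ≤ m) (hm2 : m ≤ 1 + α) (hxm : 4 * x ^ 2 = (1 + m) ^ 2 - α ^ 2) :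
    1 - 2 * (C * x) + C ^ 2 * m ≤ c ^ 2 := by
  have h1s : 0 < 1 + s := by linarith
  have hα0 : 0 < α := by rw [hα]; positivity
  have hα1 : α < 5 / 27 := by rw [hα]; linarith
  have hcpos : 0 < c := by rw [hc]; positivity
  have hc2 : c * (2 * (1 + s)) = s ^ 2 + α := by rw [hc]; field_simp
  have hr2 : r * (2 * (1 + s)) = 2 * s + s ^ 2 - α := by rw [hr]; field_simp
  have hrpos : 0 < r := by
    rw [hr]; apply div_pos _ (by linarith)
    rw [hα]; nlinarith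
  have hCpos : 0 < C := by rw [hC]; positivity
  have hC2 : C ^ 2 * (1 + α) = (1 + c) ^ 2 := by
    rw [hC, ← hβ2]; field_simp
  have hS2 : S ^ 2 * (1 + α) = r ^ 2 := by
    rw [hS, ← hβ2]; field_simp
  have hcr : (1 + c) ^ 2 - r ^ 2 = 1 + α := by
    have h3 : ((1 + c) ^ 2 - r ^ 2) * (4 * (1 + s) ^ 2) = (1 + α) * (4 * (1 + s) ^ 2) := by
      have e1 : ((1 + c) ^ 2 - r ^ 2) * (4 * (1 + s) ^ 2)
          = (2 * (1 + s) + c * (2 * (1 + s))) ^ 2 - (r * (2 * (1 + s))) ^ 2 := by ring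
      rw [e1, hc2, hr2]; ring
    have h4 : (0:ℝ) < 4 * (1 + s) ^ 2 := by positivity
    exact mul_right_cancel₀ (ne_of_gt h4) h3
  have hCS : C ^ 2 - S ^ 2 = 1 := by
    have h5 : (C ^ 2 - S ^ 2) * (1 + α) = 1 * (1 + α) := by
      rw [sub_mul, hC2, hS2, hcr]; ring
    exact mul_right_cancel₀ (by linarith : (1 + α) ≠ 0) h5
  -- 2c ≥ α
  have h2c : α ≤ 2 * c := by
    have : α * (1 + s) ≤ 2 * c * (1 + s) := by nlinarith
    exact le_of_mul_le_mul_right this h1s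
  -- r ≥ 2c
  have hr2c : 2 * c ≤ r := by
    have : (2 * c) * (2 * (1 + s)) ≤ r * (2 * (1 + s)) := by
      have e : (2 * c) * (2 * (1 + s)) = 2 * (c * (2 * (1 + s))) := by ring
      rw [e, hc2, hr2, hα]; nlinarith
    exact le_of_mul_le_mul_right this (by linarith)
  have hSm : c ^ 2 ≤ S ^ 2 * m := by
    have h6 : c ^ 2 * (1 + α) ≤ (S ^ 2 * m) * (1 + α) := by
      have e : (S ^ 2 * m) * (1 + α) = (S ^ 2 * (1 + α)) * m := by ring
      rw [e, hS2]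
      have h7 : r ^ 2 * (1 - α) ≤ r ^ 2 * m := by
        apply mul_le_mul_of_nonneg_left hm1 (by positivity)
      have h8 : (2 * c) ^ 2 ≤ r ^ 2 := by
        apply pow_le_pow_left₀ (by positivity) hr2c
      have h9 : (2 * c) ^ 2 * (1 - α) ≤ r ^ 2 * (1 - α) := by
        apply mul_le_mul_of_nonneg_right h8 (by linarith)
      have h10 : c ^ 2 * (1 + α) ≤ (2 * c) ^ 2 * (1 - α) := by
        nlinarith [sq_nonneg c]
      linarith
    exact le_of_mul_le_mul_right h6 (by linarith)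
  -- factor identity
  have hfac : C ^ 2 * ((1 + m) ^ 2 - α ^ 2) - (1 + C ^ 2 * m - c ^ 2) ^ 2
      = C ^ 2 * (1 + α - m) * (S ^ 2 * m + 2 * c - c ^ 2 - α) := by
    have hS' : S ^ 2 = C ^ 2 - 1 := by linarith
    rw [hS']
    -- use C^2 (1+α) = (1+c)^2
    have hh : (1 + c) ^ 2 = C ^ 2 * (1 + α) := hC2.symm
    linear_combination (C ^ 2 * m - (1 - c) ^ 2) * hh
  have hK : 0 ≤ C ^ 2 * (1 + α - m) * (S ^ 2 * m + 2 * c - c ^ 2 - α) := by
    apply mul_nonneg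
    · apply mul_nonneg (by positivity) (by linarith)
    · linarith
  have hsq : (1 + C ^ 2 * m - c ^ 2) ^ 2 ≤ (2 * (C * x)) ^ 2 := by
    have : (2 * (C * x)) ^ 2 = C ^ 2 * ((1 + m) ^ 2 - α ^ 2) := by rw [← hxm]; ring
    rw [this]; linarith
  have := abs_le_of_sq_le_sq hsq (by positivity)
  have h11 := (abs_le.mp (by simpa using this)).2
  linarith

lemma real_aux (k R N : ℝ) (hk0 : 0 ≤ k) (hk1 : k < 1) (hR : 0 < R)
    (h : k * N + 2 * k * R + R ^ 2 ≤ R) (hN : 1 - k ≤ N) : k ≤ R := by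
  by_contra hcon
  have hcon' : R < k := not_le.mp hcon
  have h2 : k * (1 - k) ≤ k * N := mul_le_mul_of_nonneg_left hN hk0
  have h3 : 0 < (k - R) * (1 - (k - R)) := mul_pos (by linarith) (by linarith)
  have h4 : 0 < R ^ 2 := by positivity
  have h5 : (k - R) * (1 - (k - R)) + 2 * R ^ 2 = k * (1 - k) + 2 * k * R + R ^ 2 - R := by ring
  linarith

lemma real_aux2 (s α c r : ℝ) (hs0 : 0 < s) (hs1 : s < 1 / 3) (hα : α = 5 * s / 9)
    (hc2 : c * (2 * (1 + s)) = s ^ 2 + α) (hr2 : r * (2 * (1 + s)) = 2 * s + s ^ 2 - α) :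
    s ^ 2 + c ≤ r := by
  have : (s ^ 2 + c) * (2 * (1 + s)) ≤ r * (2 * (1 + s)) := by
    rw [add_mul, hc2, hr2, hα]
    have : s * (4 / 9 - s - s ^ 2) ≥ 0 := by
      apply mul_nonneg hs0.le
      nlinarith
    nlinarith
  exact le_of_mul_le_mul_right this (by positivity)

/-- The invariant disk: for `0 < |a| < 5/27` there is a bounded region containing `0`, closed under
multiplication and under `y ↦ (a - y)/(1 - y)`, in which no product equals `a`. -/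
theorem exists_region (a : ℂ) (ha0 : a ≠ 0) (ha : ‖a‖ < 5 / 27) :
    ∃ D : Set ℂ, (0 : ℂ) ∈ D ∧ (∀ y ∈ D, ∀ z ∈ D, y * z ∈ D) ∧ (∀ y ∈ D, ∀ z ∈ D, y * z ≠ a) ∧
      (∀ y ∈ D, ‖y‖ < 1) ∧ (∀ y ∈ D, (a - y) / (1 - y) ∈ D) := by
  obtain ⟨α, hαdef⟩ : ∃ α, α = ‖a‖ := ⟨_, rfl⟩
  have hαpos : 0 < α := by rw [hαdef]; exact norm_pos_iff.mpr ha0
  have hαlt : α < 5 / 27 := by rw [hαdef]; exact ha
  obtain ⟨s, hs⟩ : ∃ s, s = 9 * α / 5 := ⟨_, rfl⟩
  have hαs : α = 5 * s / 9 := by rw [hs]; ring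
  have hs0 : 0 < s := by rw [hs]; positivity
  have hs1 : s < 1 / 3 := by rw [hs]; linarith
  obtain ⟨c, hc⟩ : ∃ c, c = (s ^ 2 + α) / (2 * (1 + s)) := ⟨_, rfl⟩
  obtain ⟨r, hr⟩ : ∃ r, r = (2 * s + s ^ 2 - α) / (2 * (1 + s)) := ⟨_, rfl⟩
  obtain ⟨β, hβdef⟩ : ∃ β, β = Real.sqrt (1 + α) := ⟨_, rfl⟩
  have hβ : 0 < β := by rw [hβdef]; exact Real.sqrt_pos.mpr (by linarith)
  have hβ2 : β ^ 2 = 1 + α := by rw [hβdef]; exact Real.sq_sqrt (by linarith)
  obtain ⟨C, hC⟩ : ∃ C, C = (1 + c) / β := ⟨_, rfl⟩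
  obtain ⟨S, hS⟩ : ∃ S, S = r / β := ⟨_, rfl⟩
  -- square root of 1 - a with nonnegative real part
  obtain ⟨δ, hδ2, hδre⟩ : ∃ δ : ℂ, δ ^ 2 = 1 - a ∧ 0 ≤ δ.re := by
    obtain ⟨z, hz⟩ := IsAlgClosed.exists_pow_nat_eq (1 - a) (n := 2) (by norm_num)
    rcases le_total 0 z.re with h | h
    · exact ⟨z, hz, h⟩
    · exact ⟨-z, by rw [neg_sq, hz], by simpa using h⟩
  have h1s : 0 < 1 + s := by linarith
  have hcpos : 0 < c := by rw [hc]; positivity
  have hrpos : 0 < r := by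
    rw [hr]; apply div_pos _ (by linarith)
    rw [hαs]; nlinarith
  have hc2 : c * (2 * (1 + s)) = s ^ 2 + α := by rw [hc]; field_simp
  have hr2 : r * (2 * (1 + s)) = 2 * s + s ^ 2 - α := by rw [hr]; field_simp
  have hCpos : 0 < C := by rw [hC]; positivity
  have hSpos : 0 < S := by rw [hS]; positivity
  have hCS : C ^ 2 - S ^ 2 = 1 := by
    have hcr : (1 + c) ^ 2 - r ^ 2 = 1 + α := by
      have h3 : ((1 + c) ^ 2 - r ^ 2) * (4 * (1 + s) ^ 2) = (1 + α) * (4 * (1 + s) ^ 2) := by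
        have e1 : ((1 + c) ^ 2 - r ^ 2) * (4 * (1 + s) ^ 2)
            = (2 * (1 + s) + c * (2 * (1 + s))) ^ 2 - (r * (2 * (1 + s))) ^ 2 := by ring
        rw [e1, hc2, hr2]; ring
      have h4 : (0:ℝ) < 4 * (1 + s) ^ 2 := by positivity
      exact mul_right_cancel₀ (ne_of_gt h4) h3
    have : C ^ 2 - S ^ 2 = ((1 + c) ^ 2 - r ^ 2) / β ^ 2 := by rw [hC, hS]; field_simp
    rw [this, hcr, hβ2]; field_simp
  have hsum : c + r = s := by
    have : (c + r) * (2 * (1 + s)) = s * (2 * (1 + s)) := by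
      rw [add_mul, hc2, hr2]; ring
    exact mul_right_cancel₀ (by positivity : (2 * (1 + s)) ≠ 0) this
  have hsc : s ^ 2 + c ≤ r := real_aux2 s α c r hs0 hs1 hαs hc2 hr2
  -- coordinates
  have hre : 1 - a.re = δ.re ^ 2 - δ.im ^ 2 := by
    have := congrArg Complex.re hδ2
    simp [pow_two] at this
    rw [← this]; ring
  have him : - a.im = 2 * (δ.re * δ.im) := by
    have := congrArg Complex.im hδ2
    simp [pow_two] at this
    rw [← this]; ring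
  have hna : α ^ 2 = a.re ^ 2 + a.im ^ 2 := by
    rw [hαdef, Complex.sq_norm, Complex.normSq_apply]; ring
  obtain ⟨m, hm⟩ : ∃ m, m = δ.re ^ 2 + δ.im ^ 2 := ⟨_, rfl⟩
  have hxm : 4 * δ.re ^ 2 = (1 + m) ^ 2 - α ^ 2 := by
    have ha1 : a.re = 1 - (δ.re ^ 2 - δ.im ^ 2) := by linarith
    have ha2 : a.im = - (2 * (δ.re * δ.im)) := by linarith
    rw [hna, ha1, ha2, hm]; ring
  have hm0 : 0 ≤ m := by rw [hm]; positivity
  have hmm : (1 - m) ^ 2 ≤ α ^ 2 := by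
    have e : (1 - m) ^ 2 = (1 + m) ^ 2 - 4 * m := by ring
    have e2 : 4 * δ.re ^ 2 ≤ 4 * m := by
      rw [hm]; have := sq_nonneg δ.im; linarith
    rw [e]; linarith
  have habs := abs_le_of_sq_le_sq' hmm hαpos.le
  have hm1 : 1 - α ≤ m := by linarith [habs.2]
  have hm2 : m ≤ 1 + α := by linarith [habs.1]
  have key := real_key s α c r β C S δ.re m hs0 hs1 hαs hc hr hβ hβ2 hC hS hδre hm1 hm2 hxm
  have hnδ : ‖δ‖ ^ 2 = m := by
    rw [Complex.sq_norm, Complex.normSq_apply, hm]; ring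
  have hδβ : ‖δ‖ ≤ β := by
    have h2 : ‖δ‖ ^ 2 ≤ β ^ 2 := by rw [hnδ, hβ2]; exact hm2
    exact (abs_le_of_sq_le_sq' h2 hβ.le).2
  -- centre
  obtain ⟨k, hk⟩ : ∃ k : ℂ, k = 1 - (C : ℂ) * δ := ⟨_, rfl⟩
  have hkn : ‖k‖ ≤ c := by
    have h2 : ‖k‖ ^ 2 ≤ c ^ 2 := by
      have e0 : ‖k‖ ^ 2 = 1 - 2 * (C * δ.re) + C ^ 2 * m := by
        rw [Complex.sq_norm, Complex.normSq_apply, hk, hm]
        simp
        ring
      rw [e0]
      exact key
    exact abs_le_of_sq_le_sq' h2 hcpos.le |>.2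
  have h1k : ‖1 - k‖ = C * ‖δ‖ := by
    rw [hk]; simp [abs_of_pos hCpos]
  have hδpos : 0 < ‖δ‖ := by
    rw [norm_pos_iff]
    intro h0
    rw [h0] at hnδ
    simp at hnδ
    linarith
  obtain ⟨R, hR⟩ : ∃ R, R = S * ‖δ‖ := ⟨_, rfl⟩
  have hRpos : 0 < R := by rw [hR]; positivity
  have hRr : R ≤ r := by
    rw [hR]
    have : S * ‖δ‖ ≤ S * β := mul_le_mul_of_nonneg_left hδβ hSpos.le
    have h2 : S * β = r := by rw [hS]; field_simp
    linarith
  -- main disk inequality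
  have hstar : ‖k‖ * ‖1 - k‖ + 2 * ‖k‖ * R + R ^ 2 ≤ R := by
    rw [h1k, hR]
    have h3 : ‖k‖ * C + 2 * ‖k‖ * S + S ^ 2 * ‖δ‖ ≤ S := by
      have h4 : ‖k‖ * C + 2 * ‖k‖ * S + S ^ 2 * ‖δ‖ ≤ c * C + 2 * c * S + S ^ 2 * β := by
        have e1 : ‖k‖ * C ≤ c * C := mul_le_mul_of_nonneg_right hkn hCpos.le
        have e2 : ‖k‖ * S ≤ c * S := mul_le_mul_of_nonneg_right hkn hSpos.le
        have e3 : S ^ 2 * ‖δ‖ ≤ S ^ 2 * β := mul_le_mul_of_nonneg_left hδβ (by positivity)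
        have e4 : 2 * ‖k‖ * S = 2 * (‖k‖ * S) := by ring
        have e5 : 2 * c * S = 2 * (c * S) := by ring
        rw [e4, e5]
        linarith
      have h5 : (c * C + 2 * c * S + S ^ 2 * β) * β ≤ S * β := by
        have hCβ : C * β = 1 + c := by rw [hC]; field_simp
        have hSβ : S * β = r := by rw [hS]; field_simp
        have e : (c * C + 2 * c * S + S ^ 2 * β) * β = c * (C * β) + 2 * c * (S * β) + (S * β) ^ 2 := by ring
        rw [e, hCβ, hSβ]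
        have : c * (1 + c) + 2 * c * r + r ^ 2 = (c + r) ^ 2 + c := by ring
        rw [this, hsum]
        exact hsc
      have h6 := le_of_mul_le_mul_right h5 hβ
      linarith
    have : ‖k‖ * (C * ‖δ‖) + 2 * ‖k‖ * (S * ‖δ‖) + (S * ‖δ‖) ^ 2
        = (‖k‖ * C + 2 * ‖k‖ * S + S ^ 2 * ‖δ‖) * ‖δ‖ := by ring
    rw [this]
    exact mul_le_mul_of_nonneg_right h3 hδpos.le
  have hk1 : ‖k‖ < 1 := by
    have : c < 1 := by linarith
    linarith
  have hkR : ‖k‖ ≤ R := by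
    have h1 : 1 - ‖k‖ ≤ ‖1 - k‖ := by
      have := norm_sub_norm_le (1 : ℂ) k
      simpa using this
    exact real_aux ‖k‖ R ‖1 - k‖ (norm_nonneg _) hk1 hRpos hstar h1
  have hmem : ∀ y : ℂ, ‖y - k‖ ≤ R → ‖y‖ ≤ s := by
    intro y hy
    have : ‖y‖ ≤ ‖y - k‖ + ‖k‖ := by
      have := norm_add_le (y - k) k
      simpa using this
    linarith
  refine ⟨{y | ‖y - k‖ ≤ R}, ?_, ?_, ?_, ?_, ?_⟩
  · simpa using hkR
  · intro y hy z hz
    simp only [Set.mem_ofPred_eq] at hy hz ⊢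
    have e : y * z - k = -(k * (1 - k)) + (k * (y - k) + k * (z - k)) + (y - k) * (z - k) := by ring
    rw [e]
    calc ‖-(k * (1 - k)) + (k * (y - k) + k * (z - k)) + (y - k) * (z - k)‖
        ≤ ‖-(k * (1 - k)) + (k * (y - k) + k * (z - k))‖ + ‖(y - k) * (z - k)‖ := norm_add_le _ _
      _ ≤ ‖-(k * (1 - k))‖ + ‖k * (y - k) + k * (z - k)‖ + ‖(y - k) * (z - k)‖ := by
          gcongr; exact norm_add_le _ _
      _ ≤ ‖-(k * (1 - k))‖ + (‖k * (y - k)‖ + ‖k * (z - k)‖) + ‖(y - k) * (z - k)‖ := by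
          gcongr; exact norm_add_le _ _
      _ = ‖k‖ * ‖1 - k‖ + (‖k‖ * ‖y - k‖ + ‖k‖ * ‖z - k‖) + ‖y - k‖ * ‖z - k‖ := by
          rw [norm_neg, norm_mul, norm_mul, norm_mul, norm_mul]
      _ ≤ ‖k‖ * ‖1 - k‖ + (‖k‖ * R + ‖k‖ * R) + R * R := by
          gcongr
      _ = ‖k‖ * ‖1 - k‖ + 2 * ‖k‖ * R + R ^ 2 := by ring
      _ ≤ R := hstar
  · intro y hy z hz h
    have h1 := hmem y hy
    have h2 := hmem z hz
    have h3 : α = ‖y‖ * ‖z‖ := by rw [hαdef, ← h, norm_mul]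
    have h4 : ‖y‖ * ‖z‖ ≤ s * s := mul_le_mul h1 h2 (norm_nonneg _) hs0.le
    have h5 : s * s < α := by
      rw [hαs]
      have : s * (5 / 9 - s) > 0 := mul_pos hs0 (by linarith)
      linarith
    linarith
  · intro y hy
    have := hmem y hy
    linarith
  · intro y hy
    have hy1 : ‖y‖ < 1 := by
      have := hmem y hy
      linarith
    have hv : (1 - y) ≠ 0 := by
      intro h
      have : y = 1 := by linear_combination -h
      rw [this] at hy1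
      simp at hy1
    simp only [Set.mem_ofPred_eq] at hy ⊢
    obtain ⟨v, hvdef⟩ : ∃ v, v = 1 - y := ⟨_, rfl⟩
    have hyv : y = 1 - v := by rw [hvdef]; ring
    rw [← hvdef] at hv
    have e1 : (a - y) / (1 - y) - k = (δ / v) * ((C : ℂ) * v - δ) := by
      rw [← hvdef, hyv, hk]
      have : a = 1 - δ ^ 2 := by rw [hδ2]; ring
      rw [this]
      field_simp
      ring
    rw [e1, norm_mul, norm_div]
    have hvn : 0 < ‖v‖ := norm_pos_iff.mpr hv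
    have e2 : ‖(C : ℂ) * v - δ‖ ≤ S * ‖v‖ := by
      have h0 : ‖(C : ℂ) * δ - v‖ ≤ S * ‖δ‖ := by
        have : y - k = (C : ℂ) * δ - v := by rw [hyv, hk]; ring
        rw [← this, ← hR]; exact hy
      have h1 : ‖(C : ℂ) * δ - v‖ ^ 2 ≤ (S * ‖δ‖) ^ 2 :=
        pow_le_pow_left₀ (norm_nonneg _) h0 2
      have h2 : ‖(C : ℂ) * v - δ‖ ^ 2 ≤ (S * ‖v‖) ^ 2 := by
        rw [mul_pow, Complex.sq_norm, Complex.sq_norm, Complex.normSq_apply, Complex.normSq_apply] at h1 ⊢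
        simp at h1 ⊢
        have hS2 : S ^ 2 = C ^ 2 - 1 := by linarith
        rw [hS2] at h1 ⊢
        have e : ∀ p q x y : ℝ, (C * p - x) * (C * p - x) + (C * q - y) * (C * q - y)
            - (C ^ 2 - 1) * (p * p + q * q) = (C * x - p) * (C * x - p) + (C * y - q) * (C * y - q)
            - (C ^ 2 - 1) * (x * x + y * y) := by intro p q x y; ring
        have := e v.re v.im δ.re δ.im
        linarith
      exact abs_le_of_sq_le_sq' h2 (by positivity) |>.2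
    calc ‖δ‖ / ‖v‖ * ‖(C : ℂ) * v - δ‖ ≤ ‖δ‖ / ‖v‖ * (S * ‖v‖) := by gcongr
      _ = S * ‖δ‖ := by field_simp
      _ = R := hR.symm

end Pool.Agent.Lib.MP_9ef6ec_co
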