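import Mathlib
import Pool.Agent.Lib.MP_9ef6ec_co.Region
import Pool.Agent.Lib.MP_9ef6ec_co.Potts
import Pool.Agent.Lib.MP_9ef6ec_co.Minor

set_option autoImplicit false

namespace Pool.Agent.Lib.MP_9ef6ec_co

open Finset Polynomial

/-- series composition stays in the region -/
lemma series_good (a : ℂ) (ha1 : a ≠ 1) (D : Set ℂ)
    (hmul : ∀ y ∈ D, ∀ z ∈ D, y * z ∈ D) (hlt : ∀ y ∈ D, ‖y‖ < 1)
    (hinv : ∀ y ∈ D, (a - y) / (1 - y) ∈ D) (y₁ y₂ : ℂ) (h₁ : y₁ ∈ D) (h₂ : y₂ ∈ D)
    (h₁a : y₁ ≠ a) (h₂a : y₂ ≠ a) :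
    y₁ + y₂ - 1 - a ≠ 0 ∧ (y₁ * y₂ - a) / (y₁ + y₂ - 1 - a) ∈ D ∧
      (y₁ * y₂ - a) / (y₁ + y₂ - 1 - a) ≠ a := by
  have hne : ∀ y ∈ D, (1 - y) ≠ 0 := by
    intro y hy h
    have hy1 := hlt y hy
    have : y = 1 := by linear_combination -h
    rw [this] at hy1
    simp at hy1
  have hz₁ := hinv y₁ h₁
  have hz₂ := hinv y₂ h₂
  have hz := hmul _ hz₁ _ hz₂
  have hn1 := hne y₁ h₁
  have hn2 := hne y₂ h₂
  have ha1' : (1 - a) ≠ 0 := sub_ne_zero.mpr (Ne.symm ha1)
  obtain ⟨z, hzdef⟩ : ∃ z, z = (a - y₁) / (1 - y₁) * ((a - y₂) / (1 - y₂)) := ⟨_, rfl⟩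
  rw [← hzdef] at hz
  have hnz := hne z hz
  have e1 : (1 - z) * ((1 - y₁) * (1 - y₂)) = (1 - a) * (1 + a - y₁ - y₂) := by
    rw [hzdef]; field_simp; ring
  have hA : y₁ + y₂ - 1 - a ≠ 0 := by
    intro h
    have h2 : (1 + a - y₁ - y₂) = 0 := by linear_combination -h
    rw [h2, mul_zero] at e1
    rcases mul_eq_zero.mp e1 with h3 | h3
    · exact hnz h3
    · rcases mul_eq_zero.mp h3 with h4 | h4
      · exact hn1 h4
      · exact hn2 h4
  have e2 : (y₁ * y₂ - a) / (y₁ + y₂ - 1 - a) = (a - z) / (1 - z) := by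
    rw [div_eq_div_iff hA hnz]
    have e3 : (y₁ * y₂ - a) * (1 - z) * ((1 - y₁) * (1 - y₂)) =
        (a - z) * (y₁ + y₂ - 1 - a) * ((1 - y₁) * (1 - y₂)) := by
      rw [hzdef]; field_simp; ring
    have h5 : (1 - y₁) * (1 - y₂) ≠ 0 := mul_ne_zero hn1 hn2
    exact mul_right_cancel₀ h5 e3
  refine ⟨hA, ?_, ?_⟩
  · rw [e2]; exact hinv z hz
  · rw [e2]
    intro h
    rw [div_eq_iff hnz] at h
    have h6 : z * (1 - a) = 0 := by linear_combination -h
    rcases mul_eq_zero.mp h6 with h7 | h7
    · rw [hzdef] at h7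
      rcases mul_eq_zero.mp h7 with h8 | h8
      · rw [div_eq_zero_iff] at h8
        rcases h8 with h9 | h9
        · exact h₁a (sub_eq_zero.mp h9).symm
        · exact hn1 h9
      · rw [div_eq_zero_iff] at h8
        rcases h8 with h9 | h9
        · exact h₂a (sub_eq_zero.mp h9).symm
        · exact hn2 h9
    · exact ha1' h7

variable {V : Type} [Fintype V] [DecidableEq V]

lemma ZP_zero (w : Sym2 V → ℂ) (hw : ∀ e, w e = 0) (q : ℂ) (hq : q ≠ 0) : (ZP w).eval q ≠ 0 := by
  have h1 : ZP w = X ^ (kk (∅ : Finset (Sym2 V))) := by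
    unfold ZP
    rw [Finset.sum_eq_single ∅]
    · simp
    · intro A _ hA
      obtain ⟨e, he⟩ := Finset.nonempty_iff_ne_empty.mpr hA
      rw [Finset.prod_eq_zero he (hw e)]
      simp
    · intro h
      exact absurd (Finset.empty_mem_powerset _) h
  rw [h1]
  simpa using pow_ne_zero _ hq

/-- `G` with vertex `x` isolated -/
def isoV (G : SimpleGraph V) (x : V) : SimpleGraph V where
  Adj a b := G.Adj a b ∧ a ≠ x ∧ b ≠ x
  symm := ⟨fun _ _ h => ⟨h.1.symm, h.2.2, h.2.1⟩⟩
  loopless := ⟨fun _ h => G.irrefl h.1⟩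

/-- `G` with vertex `x` isolated and the edge `ut` added -/
def supp2 (G : SimpleGraph V) (x u t : V) : SimpleGraph V where
  Adj a b := a ≠ x ∧ b ≠ x ∧ a ≠ b ∧ (G.Adj a b ∨ (a = u ∧ b = t) ∨ (a = t ∧ b = u))
  symm := ⟨fun a b h => ⟨h.2.1, h.1, h.2.2.1.symm, by
    rcases h.2.2.2 with h1 | ⟨h1, h2⟩ | ⟨h1, h2⟩
    · exact Or.inl h1.symm
    · exact Or.inr (Or.inr ⟨h2, h1⟩)
    · exact Or.inr (Or.inl ⟨h2, h1⟩)⟩⟩
  loopless := ⟨fun _ h => h.2.2.1 rfl⟩

/-- the main non-vanishing statement for weights in the region -/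
theorem main_ind (a : ℂ) (ha0 : a ≠ 0) (ha1 : a ≠ 1) (D : Set ℂ)
    (hmul : ∀ y ∈ D, ∀ z ∈ D, y * z ∈ D) (hprod : ∀ y ∈ D, ∀ z ∈ D, y * z ≠ a)
    (hlt : ∀ y ∈ D, ‖y‖ < 1) (hinv : ∀ y ∈ D, (a - y) / (1 - y) ∈ D) :
    ∀ (n : ℕ) (G : SimpleGraph V) (S : Finset V) (w : Sym2 V → ℂ), S.card ≤ n →
      (∀ v, (∃ b, G.Adj v b) → v ∈ S) → ¬ HasK4 G →
      (∀ x y, ¬ G.Adj x y → w s(x, y) = 0) →
      (∀ x y, G.Adj x y → 1 + w s(x, y) ∈ D ∧ 1 + w s(x, y) ≠ a) →
      (ZP w).eval (1 - a) ≠ 0 := by
  have hq : (1 - a) ≠ 0 := sub_ne_zero.mpr (Ne.symm ha1)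
  intro n
  induction n with
  | zero =>
    intro G S w hS hsupp _ hw _
    apply ZP_zero _ _ _ hq
    intro e
    induction e using Sym2.ind with
    | _ x y =>
      apply hw
      intro hxy
      have h0 : S = ∅ := Finset.card_eq_zero.mp (Nat.le_zero.mp hS)
      have := hsupp x ⟨y, hxy⟩
      rw [h0] at this
      simp at this
  | succ n ih =>
    intro G S w hS hsupp hK hw hgood
    by_cases hE : ∃ x y, G.Adj x y
    swap
    · apply ZP_zero _ _ _ hq
      intro e
      induction e using Sym2.ind with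
      | _ x y =>
        apply hw
        intro hxy
        exact hE ⟨x, y, hxy⟩
    obtain ⟨x, a', b', ⟨u, hxu⟩, hnb⟩ := exists_low G hK hE
    have hxS : x ∈ S := hsupp x ⟨u, hxu⟩
    have hcard : (S.erase x).card ≤ n := by
      rw [Finset.card_erase_of_mem hxS]; omega
    by_cases ht : ∃ t, t ≠ u ∧ G.Adj x t
    · -- degree two
      obtain ⟨t, htu, hxt⟩ := ht
      have hnb2 : ∀ c, G.Adj x c → c = u ∨ c = t := by
        intro c hc
        have h1 := hnb c hc
        have h2 := hnb u hxu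
        have h3 := hnb t hxt
        rcases h1 with h1 | h1 <;> rcases h2 with h2 | h2 <;> rcases h3 with h3 | h3
        all_goals first
          | (exact absurd (h3.trans h2.symm) htu)
          | (left; rw [h1, h2]; done)
          | (right; rw [h1, h3]; done)
      have hxu' : x ≠ u := hxu.ne
      have hxt' : x ≠ t := hxt.ne
      have hut' : u ≠ t := Ne.symm htu
      obtain ⟨hy1, hy1a⟩ := hgood x u hxu
      obtain ⟨hy2, hy2a⟩ := hgood x t hxt
      obtain ⟨v₁, hv₁⟩ : ∃ v, v = w s(x, u) := ⟨_, rfl⟩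
      obtain ⟨v₂, hv₂⟩ : ∃ v, v = w s(x, t) := ⟨_, rfl⟩
      obtain ⟨b, hb⟩ : ∃ v, v = w s(u, t) := ⟨_, rfl⟩
      rw [← hv₁] at hy1 hy1a
      rw [← hv₂] at hy2 hy2a
      obtain ⟨w0, hw0⟩ : ∃ w0 : Sym2 V → ℂ, w0 = fun e => if x ∈ e ∨ e = s(u, t) then 0 else w e :=
        ⟨_, rfl⟩
      have hne1 : (s(x, u) : Sym2 V) ≠ s(u, t) := by
        intro h
        rw [Sym2.eq_iff] at h
        rcases h with ⟨h1, _⟩ | ⟨h1, _⟩
        · exact hxu' h1
        · exact hxt' h1
      have hne2 : (s(x, t) : Sym2 V) ≠ s(u, t) := by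
        intro h
        rw [Sym2.eq_iff] at h
        rcases h with ⟨h1, _⟩ | ⟨h1, _⟩
        · exact hxu' h1
        · exact hxt' h1
      have hne3 : (s(x, t) : Sym2 V) ≠ s(x, u) := by
        intro h
        rw [Sym2.eq_iff] at h
        rcases h with ⟨_, h1⟩ | ⟨h1, _⟩
        · exact htu h1
        · exact hxu' h1
      have hweq : w = Function.update (Function.update (Function.update w0 s(u, t) b) s(x, u) v₁)
          s(x, t) v₂ := by
        funext e
        by_cases e1 : e = s(x, t)
        · rw [e1, Function.update_self]; exact hv₂.symm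
        rw [Function.update_of_ne e1]
        by_cases e2 : e = s(x, u)
        · rw [e2, Function.update_self]; exact hv₁.symm
        rw [Function.update_of_ne e2]
        by_cases e3 : e = s(u, t)
        · rw [e3, Function.update_self]; exact hb.symm
        rw [Function.update_of_ne e3, hw0]
        by_cases e4 : x ∈ e
        · simp only [e4, true_or, if_true]
          obtain ⟨c, rfl⟩ := Sym2.mem_iff_exists.mp e4
          apply hw
          intro hc
          rcases hnb2 c hc with h | h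
          · rw [h] at e2; exact e2 rfl
          · rw [h] at e1; exact e1 rfl
        · simp only [e4, e3, or_self, if_false]
      have hx0 : ∀ e, x ∈ e → w0 e = 0 := by
        intro e he
        rw [hw0]
        simp only [he, true_or, if_true]
      have hut0 : w0 s(u, t) = 0 := by
        rw [hw0]; simp
      obtain ⟨hA, hser, hsera⟩ := series_good a ha1 D hmul hlt hinv (1 + v₁) (1 + v₂) hy1 hy2 hy1a hy2a
      have hAeq : (1 - a) + v₁ + v₂ = (1 + v₁) + (1 + v₂) - 1 - a := by ring
      have hA' : (1 - a) + v₁ + v₂ ≠ 0 := by rw [hAeq]; exact hA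
      have hel := elim_two w0 x u t hxu' hxt' hut' hx0 hut0 b v₁ v₂ (1 - a) hA'
      rw [← hweq] at hel
      obtain ⟨sv, hsv⟩ : ∃ sv : ℂ, sv = 1 + v₁ * v₂ / ((1 - a) + v₁ + v₂) := ⟨_, rfl⟩
      have hsv2 : sv = ((1 + v₁) * (1 + v₂) - a) / ((1 + v₁) + (1 + v₂) - 1 - a) := by
        rw [hsv, ← hAeq]
        field_simp
        ring
      rw [← hsv2] at hser hsera
      obtain ⟨nb, hnbd⟩ : ∃ nb : ℂ, nb = b + (1 + b) * (v₁ * v₂ / ((1 - a) + v₁ + v₂)) := ⟨_, rfl⟩
      have hnb' : 1 + nb = (1 + b) * sv := by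
        rw [hnbd, hsv]; ring
      rw [← hnbd] at hel
      have hnbgood : 1 + nb ∈ D ∧ 1 + nb ≠ a := by
        by_cases hutadj : G.Adj u t
        · obtain ⟨g1, _⟩ := hgood u t hutadj
          rw [← hb] at g1
          rw [hnb']
          exact ⟨hmul _ g1 _ hser, hprod _ g1 _ hser⟩
        · have : b = 0 := by rw [hb]; exact hw u t hutadj
          rw [hnb', this]
          simpa using ⟨hser, hsera⟩
      have hmain : (ZP (Function.update w0 s(u, t) nb)).eval (1 - a) ≠ 0 := by
        apply ih (supp2 G x u t) (S.erase x) _ hcard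
        · rintro v ⟨c, hc⟩
          rw [Finset.mem_erase]
          refine ⟨hc.1, ?_⟩
          rcases hc.2.2.2 with h | ⟨h, _⟩ | ⟨h, _⟩
          · exact hsupp v ⟨c, h⟩
          · rw [h]; exact hsupp u ⟨x, hxu.symm⟩
          · rw [h]; exact hsupp t ⟨x, hxt.symm⟩
        · intro hK'
          apply hK
          refine lift_contract hxu ?_ ?_ hK'
          · intro c hc; exact hc.1 rfl
          · intro p r hpr
            rcases hpr.2.2.2 with h | ⟨h1, h2⟩ | ⟨h1, h2⟩
            · exact Or.inl h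
            · exact Or.inr (Or.inl ⟨h1, h2 ▸ hxt⟩)
            · exact Or.inr (Or.inr ⟨h2, h1 ▸ hxt.symm⟩)
        · intro p r hpr
          by_cases e3 : (s(p, r) : Sym2 V) = s(u, t)
          · exfalso
            apply hpr
            rw [Sym2.eq_iff] at e3
            rcases e3 with ⟨h1, h2⟩ | ⟨h1, h2⟩
            · rw [h1, h2]; exact ⟨hxu'.symm, hxt'.symm, hut', Or.inr (Or.inl ⟨rfl, rfl⟩)⟩
            · rw [h1, h2]; exact ⟨hxt'.symm, hxu'.symm, hut'.symm, Or.inr (Or.inr ⟨rfl, rfl⟩)⟩
          · rw [Function.update_of_ne e3]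
            by_cases e4 : x ∈ (s(p, r) : Sym2 V)
            · exact hx0 _ e4
            · rw [hw0]
              simp only [e4, e3, or_self, if_false]
              apply hw
              intro hadj
              apply hpr
              rw [Sym2.mem_iff] at e4
              push Not at e4
              exact ⟨e4.1.symm, e4.2.symm, hadj.ne, Or.inl hadj⟩
        · intro p r hpr
          by_cases e3 : (s(p, r) : Sym2 V) = s(u, t)
          · rw [e3, Function.update_self]; exact hnbgood
          · rw [Function.update_of_ne e3]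
            have e4 : x ∉ (s(p, r) : Sym2 V) := by
              rw [Sym2.mem_iff]
              rintro (h | h)
              · exact hpr.1 h.symm
              · exact hpr.2.1 h.symm
            rw [hw0]
            simp only [e4, e3, or_self, if_false]
            rcases hpr.2.2.2 with h | ⟨h1, h2⟩ | ⟨h1, h2⟩
            · exact hgood p r h
            · exact absurd (by rw [h1, h2]) e3
            · exact absurd (by rw [h1, h2]; exact Sym2.eq_swap) e3
      intro h0
      rw [h0, mul_zero] at hel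
      exact (mul_ne_zero hA' hmain) hel.symm
    · -- degree one
      push Not at ht
      have hnb1 : ∀ c, G.Adj x c → c = u := by
        intro c hc
        by_contra hcu
        exact ht c hcu hc
      obtain ⟨hy1, hy1a⟩ := hgood x u hxu
      obtain ⟨v₁, hv₁⟩ : ∃ v, v = w s(x, u) := ⟨_, rfl⟩
      rw [← hv₁] at hy1 hy1a
      obtain ⟨w0, hw0⟩ : ∃ w0 : Sym2 V → ℂ, w0 = fun e => if x ∈ e then 0 else w e := ⟨_, rfl⟩
      have hweq : w = Function.update w0 s(x, u) v₁ := by
        funext e
        by_cases e1 : e = s(x, u)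
        · rw [e1, Function.update_self]; exact hv₁.symm
        rw [Function.update_of_ne e1, hw0]
        by_cases e4 : x ∈ e
        · simp only [e4, if_true]
          obtain ⟨c, rfl⟩ := Sym2.mem_iff_exists.mp e4
          apply hw
          intro hc
          rw [hnb1 c hc] at e1
          exact e1 rfl
        · simp only [e4, if_false]
      have hx0 : ∀ e, x ∈ e → w0 e = 0 := by
        intro e he
        rw [hw0]
        simp only [he, if_true]
      have hel := elim_one w0 x u hxu.ne hx0 v₁ (1 - a)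
      rw [← hweq] at hel
      have hA' : (1 - a) + v₁ ≠ 0 := by
        intro h
        apply hy1a
        linear_combination h
      have hmain : (ZP w0).eval (1 - a) ≠ 0 := by
        apply ih (isoV G x) (S.erase x) _ hcard
        · rintro v ⟨c, hc⟩
          rw [Finset.mem_erase]
          exact ⟨hc.2.1, hsupp v ⟨c, hc.1⟩⟩
        · intro hK'
          have hle : isoV G x ≤ G := by
            intro p r h
            exact h.1
          exact hK (HasK4.mono hle hK')
        · intro p r hpr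
          by_cases e4 : x ∈ (s(p, r) : Sym2 V)
          · exact hx0 _ e4
          · rw [hw0]
            simp only [e4, if_false]
            apply hw
            intro hadj
            apply hpr
            rw [Sym2.mem_iff] at e4
            push Not at e4
            exact ⟨hadj, e4.1.symm, e4.2.symm⟩
        · intro p r hpr
          have e4 : x ∉ (s(p, r) : Sym2 V) := by
            rw [Sym2.mem_iff]
            rintro (h | h)
            · exact hpr.2.1 h.symm
            · exact hpr.2.2 h.symm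
          rw [hw0]
          simp only [e4, if_false]
          exact hgood p r hpr.1
      intro h0
      rw [h0, mul_zero] at hel
      exact (mul_ne_zero hA' hmain) hel.symm

end Pool.Agent.Lib.MP_9ef6ec_co
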